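import Pool.Agent.H.MP_dd1c2e_lc.pdt.Fin2

/-!
# A linear bound for all total functions whose rows have small parity decision trees
-/

set_option autoImplicit false

open Pool.Agent.H.MP_dd1c2e_lc

namespace Pool.Agent.Results.MP_dd1c2e_lc.ParityTreeRows

theorem result : ∀ (X : Type) (n k q : ℕ) (F : X → (Fin n → Bool) → Bool),
    (∀ x, ∃ P : PDT n, P.depth ≤ k ∧ ∀ y, P.eval y = F x y) → QuantumComputes F q →
      DetComputes F (103 * (k + 1) ^ 3 * (q + 1)) :=
  fun _ _ _ _ F h hq => pdtRows F h hq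

end Pool.Agent.Results.MP_dd1c2e_lc.ParityTreeRows
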